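import Mathlib

/-!
# Under the stick principle and `𝔠 > ℵ₁` there is no `(1, ω)`-weakly universal function
-/

namespace Pool.Agent.Results.MP_395df9_lc.NoWeaklyUniversal

open Cardinal Set

/-- The set `ω₁` of countable ordinals. -/
abbrev Om : Type := (ℵ_ 1).ord.ToType

/-- `[ω₁]²`, the set of unordered pairs of distinct countable ordinals. -/
abbrev Pairs : Type := {s : Sym2 Om // ¬ s.IsDiag}

/-- The unordered pair `{α, β}`. -/
def pr {α β : Om} (h : α ≠ β) : Pairs := ⟨s(α, β), by simpa using h⟩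

/-- The function `U : [ω₁]² → ω` is `(1, κ)`-weakly universal. -/
def WeaklyUniversal (κ : Cardinal.{0}) (U : Pairs → ℕ) : Prop :=
  ∀ F : Pairs → ℕ, ∃ (h : Om → Om) (hi : Function.Injective h) (e : ℕ → ℕ),
    (∀ n : ℕ, #(e ⁻¹' {n}) < κ) ∧
    ∀ (α β : Om) (hab : α ≠ β), F (pr hab) = e (U (pr (hi.ne hab)))

/-- The stick principle: there is a family of `ℵ₁` countably infinite subsets of `ω₁` such that
every uncountable subset of `ω₁` contains a member of the family. -/
def Stick : Prop :=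
  ∃ S : Set (Set Om), #S = ℵ_ 1 ∧ (∀ s ∈ S, s.Countable ∧ s.Infinite) ∧
    ∀ X : Set Om, ¬ X.Countable → ∃ s ∈ S, s ⊆ X

theorem mk_Om : #Om = ℵ_ 1 := by
  simp [Om]

theorem Iio_countable (β : Om) : (Set.Iio β).Countable := by
  have h := Cardinal.mk_Iio_toType_ord_lt (c := ℵ_ 1) β
  rw [← Set.countable_coe_iff]
  have : #(Set.Iio β) ≤ ℵ₀ := by
    rw [← Order.lt_succ_iff, Cardinal.succ_aleph0]
    exact h
  exact (Cardinal.mk_le_aleph0_iff).1 this

theorem univ_not_countable : ¬ (Set.univ : Set Om).Countable := by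
  rw [← Cardinal.le_aleph0_iff_set_countable, not_le, Cardinal.mk_univ, mk_Om]
  exact Cardinal.aleph0_lt_aleph_one

/-- Countable subsets of `ω₁` are bounded. -/
theorem exists_bound {s : Set Om} (hs : s.Countable) : ∃ β : Om, ∀ α ∈ s, α < β := by
  by_contra hcon
  push Not at hcon
  apply univ_not_countable
  have : (Set.univ : Set Om) ⊆ ⋃ α ∈ s, (Set.Iio α ∪ {α}) := by
    intro β _
    obtain ⟨α, hα, hb⟩ := hcon β
    simp only [mem_iUnion, mem_union, mem_Iio, mem_singleton_iff]
    exact ⟨α, hα, lt_or_eq_of_le hb⟩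
  refine Set.Countable.mono this ?_
  exact hs.biUnion fun α _ => (Iio_countable α).union (Set.countable_singleton α)

/-- Distinct representatives of a sequence of infinite sets. -/
theorem exists_inj_seq {X : Type} (a : ℕ → Set X) (ha : ∀ n, (a n).Infinite) :
    ∃ f : ℕ → X, Function.Injective f ∧ ∀ n, f n ∈ a n := by
  classical
  have hp : ∀ (n : ℕ) (l : Finset X), ∃ x, x ∈ a n ∧ x ∉ l := fun n l =>
    (ha n).exists_notMem_finset l
  choose pick hpa hpl using hp
  let g : ℕ → Finset X := fun n => Nat.rec ∅ (fun n s => insert (pick n s) s) n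
  have hg : ∀ n, g (n + 1) = insert (pick n (g n)) (g n) := fun n => rfl
  have hmono : Monotone g := monotone_nat_of_le_succ fun n => by
    rw [hg]; exact Finset.subset_insert _ _
  refine ⟨fun n => pick n (g n), ?_, fun n => hpa n _⟩
  have key : ∀ m n, m < n → pick m (g m) ≠ pick n (g n) := by
    intro m n hmn heq
    apply hpl n (g n)
    rw [← heq]
    apply hmono (Nat.succ_le_of_lt hmn)
    rw [Nat.succ_eq_add_one, hg]
    exact Finset.mem_insert_self _ _
  intro m n h
  rcases lt_trichotomy m n with hlt | heq | hgt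
  · exact absurd h (key m n hlt)
  · exact heq
  · exact absurd h.symm (key n m hgt)

/-- A colouring which is onto, infinitely often, on each member of a countable family of infinite
sets. -/
theorem exists_colour {X I : Type} [Countable I] (a : I → Set X) (ha : ∀ i, (a i).Infinite) :
    ∃ c : X → ℕ, ∀ i k, {x | x ∈ a i ∧ c x = k}.Infinite := by
  classical
  rcases isEmpty_or_nonempty I with hI | hI
  · exact ⟨fun _ => 0, fun i => (hI.false i).elim⟩
  obtain ⟨d, hd⟩ := exists_surjective_nat (I × ℕ × ℕ)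
  obtain ⟨f, hf, hfa⟩ := exists_inj_seq (fun n => a (d n).1) (fun n => ha _)
  refine ⟨fun x => if h : ∃ n, f n = x then (d h.choose).2.1 else 0, fun i k => ?_⟩
  have hc : ∀ n, (if h : ∃ m, f m = f n then (d h.choose).2.1 else 0) = (d n).2.1 := by
    intro n
    have h : ∃ m, f m = f n := ⟨n, rfl⟩
    rw [dif_pos h]
    have := hf h.choose_spec
    rw [this]
  have hN : {n | (d n).1 = i ∧ (d n).2.1 = k}.Infinite := by
    intro hfin
    have : (Set.range fun m : ℕ => ((i, k, m) : I × ℕ × ℕ)).Finite := by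
      refine (hfin.image d).subset ?_
      rintro _ ⟨m, rfl⟩
      obtain ⟨n, hn⟩ := hd (i, k, m)
      exact ⟨n, by simp [hn], hn⟩
    exact Set.infinite_range_of_injective (fun m m' h => by simpa using h) this
  refine (hN.image (hf.injOn)).mono ?_
  rintro _ ⟨n, ⟨h1, h2⟩, rfl⟩
  refine ⟨h1 ▸ hfa n, ?_⟩
  show (if h : ∃ m, f m = f n then (d h.choose).2.1 else 0) = k
  rw [hc n, h2]

/-- Q1: under the stick principle and the failure of the continuum hypothesis, there is no
`(1, ω)`-weakly universal function. -/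
theorem result (hst : Stick) (hc : ℵ_ 1 < (𝔠 : Cardinal.{0})) : ¬ ∃ U : Pairs → ℕ, WeaklyUniversal ℵ₀ U := by
  classical
  rintro ⟨U, hU⟩
  obtain ⟨S, hS, hSi, hSX⟩ := hst
  -- the family as a sequence, moved to `ω₁ × ω₁`
  have hSe : Nonempty (Om ≃ S) := Cardinal.eq.1 (by rw [mk_Om, hS])
  obtain ⟨eS⟩ := hSe
  have hpe : Nonempty (Om ≃ Om × Om) := Cardinal.eq.1 (by
    rw [Cardinal.mk_prod, Cardinal.lift_id, mk_Om,
      Cardinal.mul_eq_self (Cardinal.aleph0_le_aleph 1)])
  obtain ⟨ep⟩ := hpe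
  let T : Om → Set (Om × Om) := fun ξ => ep '' (eS ξ : Set Om)
  have hTc : ∀ ξ, (T ξ).Countable := fun ξ => (hSi _ (eS ξ).2).1.image _
  have hTi : ∀ ξ, (T ξ).Infinite := fun ξ => (hSi _ (eS ξ).2).2.image ep.injective.injOn
  have hTX : ∀ X : Set (Om × Om), ¬ X.Countable → ∃ ξ, T ξ ⊆ X := by
    intro X hX
    obtain ⟨s, hs, hsX⟩ := hSX (ep ⁻¹' X) (fun h => hX (by
      have := h.image ep
      rwa [Set.image_preimage_eq _ ep.surjective] at this))
    refine ⟨eS.symm ⟨s, hs⟩, ?_⟩
    show ep '' ((eS (eS.symm ⟨s, hs⟩) : S) : Set Om) ⊆ X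
    rw [Equiv.apply_symm_apply]
    exact Set.image_subset_iff.2 hsX
  let a : Om → Set Om := fun ξ => Prod.fst '' T ξ
  -- the colourings
  have hcol : ∀ β : Om, ∃ c : Om → ℕ, ∀ ξ, ξ < β → (a ξ).Infinite → ∀ k,
      {x | x ∈ a ξ ∧ c x = k}.Infinite := by
    intro β
    have : Countable {ξ : Om // ξ < β ∧ (a ξ).Infinite} := by
      have h := (Iio_countable β).mono (fun ξ (h : ξ < β ∧ (a ξ).Infinite) => h.1)
      exact h.to_subtype
    obtain ⟨c, hc⟩ := exists_colour (fun i : {ξ : Om // ξ < β ∧ (a ξ).Infinite} => a i.1)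
      (fun i => i.2.2)
    exact ⟨c, fun ξ h1 h2 k => hc ⟨ξ, h1, h2⟩ k⟩
  choose c hc' using hcol
  have hinj : ∀ β : Om, ∃ e : Om → ℕ, Set.InjOn e (Set.Iio β) := fun β =>
    Set.countable_iff_exists_injOn.1 (Iio_countable β)
  choose e he using hinj
  let G : (ℕ → Bool) → Om → Om → ℕ := fun r α β => if r (c β α) = true then 1 + e β α else 0
  let F : (ℕ → Bool) → Pairs → ℕ := fun r s => G r s.1.inf s.1.sup
  have hF : ∀ r (α β : Om) (h : α < β), F r (pr h.ne) = G r α β := by
    intro r α β h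
    show G r (s(α, β)).inf (s(α, β)).sup = G r α β
    simp [Sym2.inf_mk, Sym2.sup_mk, h.le]
  choose h hi e' he' hFU using fun r => hU (F r)
  have hg : ∀ r, ∃ ξ, T ξ ⊆ {p : Om × Om | p.2 = h r p.1} := by
    intro r
    apply hTX
    intro hcount
    apply univ_not_countable
    refine (hcount.image Prod.fst).mono ?_
    intro α _
    exact ⟨(α, h r α), rfl, rfl⟩
  choose ξ hξ using hg
  have hb : ∀ r, ∃ β, ξ r < β ∧ ∀ α ∈ a (ξ r), α < β := by
    intro r
    obtain ⟨β, hβ⟩ := exists_bound (((hTc (ξ r)).image Prod.fst).union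
      (Set.countable_singleton (ξ r)))
    exact ⟨β, hβ _ (Or.inr rfl), fun α hα => hβ α (Or.inl hα)⟩
  choose β hβ hβa using hb
  -- two reals with the same data
  have hnotinj : ¬ Function.Injective fun r : ℕ → Bool => (ξ r, β r, h r (β r)) := by
    intro hinj
    have h1 := Cardinal.mk_le_of_injective hinj
    have h2 : #(Om × Om × Om) = ℵ_ 1 := by
      simp only [Cardinal.mk_prod, Cardinal.lift_id, mk_Om]
      rw [Cardinal.mul_eq_self (Cardinal.aleph0_le_aleph 1),
        Cardinal.mul_eq_self (Cardinal.aleph0_le_aleph 1)]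
    have h3 : #(ℕ → Bool) = 𝔠 := by simp
    rw [h2, h3] at h1
    exact absurd hc (not_lt.2 h1)
  have key : ∀ r r' : ℕ → Bool, ξ r = ξ r' → β r = β r' → h r (β r) = h r' (β r') →
      ∀ k, r k = false → r' k = true → False := by
    intro r r' h1 h2 h3 k hk hk'
    have hainf : (a (ξ r)).Infinite := by
      refine (hTi (ξ r)).image ?_
      intro p hp q hq hpq
      have hp' := hξ r hp
      have hq' := hξ r hq
      simp only [Set.mem_ofPred_eq] at hp' hq'
      exact Prod.ext hpq (by rw [hp', hq', hpq])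
    have hA := hc' (β r) (ξ r) (hβ r) hainf k
    have hhh : ∀ α ∈ a (ξ r), h r α = h r' α := by
      rintro _ ⟨p, hp, rfl⟩
      have hp1 := hξ r hp
      have hp2 := hξ r' (h1 ▸ hp)
      simp only [Set.mem_ofPred_eq] at hp1 hp2
      rw [← hp1, ← hp2]
    let u : Om → ℕ := fun α => if hne : h r α ≠ h r (β r) then U (pr hne) else 0
    have hu : ∀ α ∈ a (ξ r), e' r (u α) = G r α (β r) ∧ e' r' (u α) = G r' α (β r) := by
      intro α hα
      have hlt : α < β r := hβa r α hα
      have hne : h r α ≠ h r (β r) := (hi r).ne hlt.ne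
      have hne' : h r' α ≠ h r' (β r) := (hi r').ne hlt.ne
      have hu1 : u α = U (pr hne) := dif_pos hne
      have hu2 : U (pr hne) = U (pr hne') := by
        congr 1
        apply Subtype.ext
        show s(h r α, h r (β r)) = s(h r' α, h r' (β r))
        rw [hhh α hα, h3, ← h2]
      refine ⟨?_, ?_⟩
      · rw [hu1, ← hF r α (β r) hlt]
        exact (hFU r α (β r) hlt.ne).symm
      · rw [hu1, hu2, ← hF r' α (β r) hlt]
        exact (hFU r' α (β r) hlt.ne).symm
    have hfin : (u '' {x | x ∈ a (ξ r) ∧ c (β r) x = k}).Finite := by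
      have h0 : (e' r ⁻¹' {0}).Finite := by
        rw [← Cardinal.lt_aleph0_iff_set_finite]; exact he' r 0
      refine h0.subset ?_
      rintro _ ⟨α, ⟨hα, hck⟩, rfl⟩
      simp only [mem_preimage, mem_singleton_iff]
      rw [(hu α hα).1]
      simp [G, hck, hk]
    have hinf : (e' r' '' (u '' {x | x ∈ a (ξ r) ∧ c (β r) x = k})).Infinite := by
      rw [Set.image_image]
      refine hA.image ?_
      rintro α ⟨hα, hck⟩ α' ⟨hα', hck'⟩ hαα'
      simp only at hαα'
      rw [(hu α hα).2, (hu α' hα').2] at hαα'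
      simp only [G, hck, hck', hk', if_true] at hαα'
      exact he (β r) (hβa r α hα) (hβa r α' hα') (by omega)
    exact hinf (hfin.image _)
  simp only [Function.Injective, not_forall] at hnotinj
  obtain ⟨r, r', heq, hne⟩ := hnotinj
  simp only [Prod.mk.injEq] at heq
  obtain ⟨h1, h2, h3⟩ := heq
  obtain ⟨k, hk⟩ := Function.ne_iff.1 hne
  cases hrk : r k <;> cases hrk' : r' k
  · exact hk (by rw [hrk, hrk'])
  · exact key r r' h1 h2 h3 k hrk hrk'
  · exact key r' r h1.symm h2.symm h3.symm k hrk' hrk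
  · exact hk (by rw [hrk, hrk'])

end Pool.Agent.Results.MP_395df9_lc.NoWeaklyUniversal
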